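import Mathlib

/-!
# MP_ea8a26, project [C]: the tail estimate in the abstract state model

`U` is the set of letters, `O ⊆ U` the odd ones (letters `σ`), `U \ O` the doubled ones (letters `1 + z σ`). A state is a set `C ⊆ U` (the smoothed letters), with a
part `a C ⊆ C` (first visited at the allowed passage).
-/

set_option autoImplicit false

namespace Pool.Agent.Helper3.C5

open Finset

set_option linter.unusedSectionVars false

variable {α : Type} [DecidableEq α]

/-- weight of a state, all letters `1 + z σ` -/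
def wO (U : Finset α) (a : Finset α → Finset α) {R : Type} [CommSemiring R] (z : R) (C : Finset α) : R :=
  z ^ (U \ C).card * (1 + z ^ 2) ^ (a C).card

/-- weight of a state, letters `σ` on `O` and `1 + z σ` on `U \ O` -/
def wD (U O : Finset α) (a : Finset α → Finset α) {R : Type} [CommSemiring R] (z : R) (C : Finset α) : R :=
  z ^ ((C ∩ O).card + ((U \ O) \ C).card) * (1 + z ^ 2) ^ (a C \ O).card

/-- the states of the diagram with single letters on `O` -/
def stD (St : Finset (Finset α)) (O : Finset α) (a : Finset α → Finset α) : Finset (Finset α) :=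
  St.filter fun C => C ∩ O ⊆ a C

/-- the abstract state model -/
structure Model (U O : Finset α) (St : Finset (Finset α)) (a : Finset α → Finset α) : Prop where
  hO : O ⊆ U
  sub : ∀ C ∈ St, C ⊆ U
  asub : ∀ C ∈ St, a C ⊆ C
  sym : ∀ m i : ℕ, i ≤ m →
    (St.filter fun C => C.card = m ∧ (a C).card = i).card = (St.filter fun C => C.card = m ∧ (a C).card = m - i).card

variable {U O : Finset α} {St : Finset (Finset α)} {a : Finset α → Finset α}

/-- symmetry for sums -/
theorem Model.sum_sym (h : Model U O St a) (φ : ℕ → ℕ → ℝ) :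
    ∑ C ∈ St, φ C.card (a C).card = ∑ C ∈ St, φ C.card (C.card - (a C).card) := by
  have hm : St.val.map (fun C => ((C.card, (a C).card) : ℕ × ℕ)) = St.val.map (fun C => ((C.card, C.card - (a C).card) : ℕ × ℕ)) := by
    ext ⟨m, i⟩
    rw [Multiset.count_map, Multiset.count_map]
    by_cases hi : i ≤ m
    · have h1 := h.sym m i hi
      have e1 : (Multiset.filter (fun C : Finset α => (m, i) = (C.card, (a C).card)) St.val).card =
          (St.filter fun C => C.card = m ∧ (a C).card = i).card := by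
        rw [Finset.card_def, Finset.filter_val]
        congr 1
        refine Multiset.filter_congr fun C _ => ?_
        rw [Prod.mk.injEq]
        constructor
        · rintro ⟨h2, h3⟩
          exact ⟨h2.symm, h3.symm⟩
        · rintro ⟨h2, h3⟩
          exact ⟨h2.symm, h3.symm⟩
      have e2 : (Multiset.filter (fun C : Finset α => (m, i) = (C.card, C.card - (a C).card)) St.val).card =
          (St.filter fun C => C.card = m ∧ (a C).card = m - i).card := by
        rw [Finset.card_def, Finset.filter_val]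
        congr 1
        refine Multiset.filter_congr fun C hC => ?_
        have h4 : (a C).card ≤ C.card := card_le_card (h.asub C hC)
        rw [Prod.mk.injEq]
        constructor
        · rintro ⟨h2, h3⟩
          exact ⟨h2.symm, by omega⟩
        · rintro ⟨h2, h3⟩
          exact ⟨h2.symm, by omega⟩
      rw [e1, e2, h1]
    · have e1 : Multiset.filter (fun C : Finset α => (m, i) = (C.card, (a C).card)) St.val = 0 := by
        rw [Multiset.filter_eq_nil]
        intro C hC h2
        have h4 : (a C).card ≤ C.card := card_le_card (h.asub C hC)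
        rw [Prod.mk.injEq] at h2
        omega
      have e2 : Multiset.filter (fun C : Finset α => (m, i) = (C.card, C.card - (a C).card)) St.val = 0 := by
        rw [Multiset.filter_eq_nil]
        intro C hC h2
        rw [Prod.mk.injEq] at h2
        omega
      rw [e1, e2]
  have h2 := congrArg (fun M : Multiset (ℕ × ℕ) => (M.map fun x => φ x.1 x.2).sum) hm
  simp only [Multiset.map_map, Function.comp_def] at h2
  exact h2

theorem wO_nonneg {r : ℝ} (hr : 0 ≤ r) (C : Finset α) : 0 ≤ wO U a r C := by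
  unfold wO
  positivity

theorem wD_nonneg {r : ℝ} (hr : 0 ≤ r) (C : Finset α) : 0 ≤ wD U O a r C := by
  unfold wD
  positivity

/-- a state of the diagram is a state of the doubled diagram -/
theorem Model.wD_le (h : Model U O St a) {r : ℝ} (hr : 0 < r) {C : Finset α} (hC : C ∈ stD St O a) :
    r ^ O.card * wD U O a r C ≤ wO U a r C := by
  obtain ⟨hC1, hC2⟩ := mem_filter.1 hC
  have hCU := h.sub C hC1
  have haC := h.asub C hC1
  -- `a C ∩ O = C ∩ O`
  have e1 : a C ∩ O = C ∩ O := by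
    apply Subset.antisymm
    · exact inter_subset_inter_right haC
    · exact subset_inter hC2 inter_subset_right
  have e2 : (a C).card = (C ∩ O).card + (a C \ O).card := by
    rw [← e1, card_inter_add_card_sdiff]
  have e3 : (U \ C).card = (O \ C).card + ((U \ O) \ C).card := by
    rw [← card_union_of_disjoint]
    · congr 1
      ext x
      simp only [mem_sdiff, mem_union]
      constructor
      · rintro ⟨h1, h2⟩
        by_cases h3 : x ∈ O
        · exact Or.inl ⟨h3, h2⟩
        · exact Or.inr ⟨⟨h1, h3⟩, h2⟩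
      · rintro (⟨h1, h2⟩ | ⟨⟨h1, _⟩, h2⟩)
        · exact ⟨h.hO h1, h2⟩
        · exact ⟨h1, h2⟩
    · rw [disjoint_left]
      intro x h1 h2
      simp only [mem_sdiff] at h1 h2
      exact h2.1.2 h1.1
  have e4 : O.card = (C ∩ O).card + (O \ C).card := by
    rw [inter_comm, card_inter_add_card_sdiff]
  unfold wO wD
  rw [e2, e3, e4]
  obtain ⟨p, hp⟩ : ∃ p, p = (C ∩ O).card := ⟨_, rfl⟩
  obtain ⟨q, hq⟩ : ∃ q, q = (O \ C).card := ⟨_, rfl⟩
  obtain ⟨s, hs⟩ : ∃ s, s = ((U \ O) \ C).card := ⟨_, rfl⟩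
  obtain ⟨t, ht⟩ : ∃ t, t = (a C \ O).card := ⟨_, rfl⟩
  rw [← hp, ← hq, ← hs, ← ht]
  have h5 : (r ^ 2) ^ p ≤ (1 + r ^ 2) ^ p := pow_le_pow_left₀ (by positivity) (by linarith) p
  calc r ^ (p + q) * (r ^ (p + s) * (1 + r ^ 2) ^ t) = (r ^ 2) ^ p * (r ^ (q + s) * (1 + r ^ 2) ^ t) := by ring
    _ ≤ (1 + r ^ 2) ^ p * (r ^ (q + s) * (1 + r ^ 2) ^ t) := mul_le_mul_of_nonneg_right h5 (by positivity)
    _ = r ^ (q + s) * (1 + r ^ 2) ^ (p + t) := by ring

/-- the states with few smoothed letters -/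
theorem Model.low (h : Model U O St a) {r : ℝ} (hr : 0 < r) {Y : ℝ} (hY : 1 ≤ Y) (M : ℕ) :
    ∑ C ∈ St.filter (fun C => C.card < M), wO U a r C ≤ (Y * (r + 1 / r)) ^ M * (r ^ U.card * (1 + 1 / Y) ^ U.card) := by
  have hY0 : 0 < Y := by linarith
  obtain ⟨b, hb⟩ : ∃ b, b = 1 + r ^ 2 := ⟨_, rfl⟩
  have hb0 : 0 < b := by rw [hb]; positivity
  have hb1 : 1 ≤ b := by rw [hb]; nlinarith
  have e0 : r + 1 / r = b / r := by rw [hb]; field_simp; ring
  have hbr : 1 ≤ b / r := by
    rw [le_div_iff₀ hr, hb]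
    nlinarith [sq_nonneg (r - 1)]
  obtain ⟨y, hy⟩ : ∃ y, y = Y * (b / r) := ⟨_, rfl⟩
  have hy1 : 1 ≤ y := by rw [hy]; nlinarith
  have hy0 : 0 < y := by linarith
  have key : ∀ C ∈ St.filter (fun C => C.card < M), wO U a r C ≤ y ^ M * ((b / y) ^ C.card * r ^ (U.card - C.card)) := by
    intro C hC
    obtain ⟨hC1, hC2⟩ := mem_filter.1 hC
    have hCU := h.sub C hC1
    have haC := card_le_card (h.asub C hC1)
    have h1 : (U \ C).card = U.card - C.card := card_sdiff_of_subset hCU
    unfold wO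
    rw [h1, ← hb]
    have h2 : b ^ (a C).card ≤ b ^ C.card := pow_le_pow_right₀ hb1 haC
    have h3 : b ^ C.card = y ^ C.card * (b / y) ^ C.card := by
      rw [← mul_pow, mul_div_cancel₀ _ hy0.ne']
    have h4 : y ^ C.card ≤ y ^ M := pow_le_pow_right₀ hy1 hC2.le
    calc r ^ (U.card - C.card) * b ^ (a C).card ≤ r ^ (U.card - C.card) * b ^ C.card := mul_le_mul_of_nonneg_left h2 (by positivity)
      _ = y ^ C.card * ((b / y) ^ C.card * r ^ (U.card - C.card)) := by rw [h3]; ring
      _ ≤ _ := mul_le_mul_of_nonneg_right h4 (by positivity)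
  refine (sum_le_sum key).trans ?_
  rw [← mul_sum, e0, ← hy]
  refine mul_le_mul_of_nonneg_left ?_ (by positivity)
  have h5 : St.filter (fun C => C.card < M) ⊆ U.powerset := by
    intro C hC
    rw [mem_powerset]
    exact h.sub C (mem_filter.1 hC).1
  refine (sum_le_sum_of_subset_of_nonneg h5 fun C _ _ => by positivity).trans ?_
  rw [sum_pow_mul_eq_add_pow, ← mul_pow]
  refine le_of_eq ?_
  congr 1
  rw [hy]
  field_simp
  ring

/-- the states with many smoothed letters, few of them allowed -/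
theorem Model.high (h : Model U O St a) {r : ℝ} (hr : 0 < r) {M m : ℕ} (hM : 2 * m ≤ M) :
    (1 + r ^ 2) ^ (M - 2 * m) * ∑ C ∈ St.filter (fun C => M ≤ C.card ∧ (a C).card ≤ m), wO U a r C ≤ ∑ C ∈ St, wO U a r C := by
  obtain ⟨b, hb⟩ : ∃ b, b = 1 + r ^ 2 := ⟨_, rfl⟩
  have hb0 : 0 < b := by rw [hb]; positivity
  have hb1 : 1 ≤ b := by rw [hb]; nlinarith
  have e1 : ∑ C ∈ St.filter (fun C => M ≤ C.card ∧ (a C).card ≤ m), wO U a r C =
      ∑ C ∈ St, (fun c i : ℕ => if M ≤ c ∧ i ≤ m then r ^ (U.card - c) * b ^ i else 0) C.card (a C).card := by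
    rw [sum_filter]
    refine sum_congr rfl fun C hC => ?_
    simp only
    congr 1
    unfold wO
    rw [card_sdiff_of_subset (h.sub C hC), hb]
  rw [e1, h.sum_sym (fun c i : ℕ => if M ≤ c ∧ i ≤ m then r ^ (U.card - c) * b ^ i else 0), mul_sum, ← hb]
  refine sum_le_sum fun C hC => ?_
  have h1 : (a C).card ≤ C.card := card_le_card (h.asub C hC)
  split_ifs with h2
  · obtain ⟨h3, h4⟩ := h2
    unfold wO
    rw [card_sdiff_of_subset (h.sub C hC), ← hb]
    have h5 : b ^ (M - 2 * m) * b ^ (C.card - (a C).card) ≤ b ^ (a C).card := by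
      rw [← pow_add]
      exact pow_le_pow_right₀ hb1 (by omega)
    calc b ^ (M - 2 * m) * (r ^ (U.card - C.card) * b ^ (C.card - (a C).card)) =
          r ^ (U.card - C.card) * (b ^ (M - 2 * m) * b ^ (C.card - (a C).card)) := by ring
      _ ≤ _ := mul_le_mul_of_nonneg_left h5 (by positivity)
  · rw [mul_zero]
    exact wO_nonneg hr.le C

/-- a lower bound of the value of the doubled diagram from one large allowed state -/
theorem Model.top (h : Model U O St a) {r : ℝ} (hr : 0 < r) {g : ℕ} (hg : ∃ C ∈ St, a C = C ∧ g ≤ C.card) :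
    r ^ U.card * (r + 1 / r) ^ g ≤ ∑ C ∈ St, wO U a r C := by
  obtain ⟨C, hC, haC, hgC⟩ := hg
  have hCU := h.sub C hC
  have hbr : 1 ≤ r + 1 / r := by
    have e0 : r + 1 / r = (1 + r ^ 2) / r := by field_simp; ring
    rw [e0, le_div_iff₀ hr]
    nlinarith [sq_nonneg (r - 1)]
  calc r ^ U.card * (r + 1 / r) ^ g ≤ r ^ U.card * (r + 1 / r) ^ C.card :=
        mul_le_mul_of_nonneg_left (pow_le_pow_right₀ hbr hgC) (by positivity)
    _ = wO U a r C := by
        unfold wO
        rw [haC, card_sdiff_of_subset hCU]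
        have h1 : U.card = (U.card - C.card) + C.card := by
          have := card_le_card hCU
          omega
        have h2 : r + 1 / r = (1 + r ^ 2) / r := by field_simp; ring
        rw [h2]
        conv_lhs => rw [h1]
        rw [pow_add, div_pow]
        field_simp
    _ ≤ _ := single_le_sum (fun C _ => wO_nonneg hr.le C) hC

/-- **The tail estimate.** -/
theorem Model.tail (h : Model U O St a) {r : ℝ} (hr : 0 < r) {g : ℕ} (hg : ∃ C ∈ St, a C = C ∧ g ≤ C.card)
    (dom : ∑ C ∈ St, wO U a r C ≤ (r + 1 / r) ^ O.card * ∑ C ∈ stD St O a, wD U O a r C)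
    {Y : ℝ} (hY : 1 ≤ Y) {k M : ℕ} (hM : 2 * (k + O.card) ≤ M) (hMg : M ≤ g) :
    ∑ C ∈ (stD St O a).filter (fun C => (a C \ O).card ≤ k), wD U O a r C ≤
      (1 + 1 / r ^ 2) ^ O.card * (Y ^ M * (1 + 1 / Y) ^ U.card / (r + 1 / r) ^ (g - M) + 1 / (1 + r ^ 2) ^ (M - 2 * (k + O.card))) *
        ∑ C ∈ stD St O a, wD U O a r C := by
  obtain ⟨F, hF⟩ : ∃ F, F = ∑ C ∈ stD St O a, wD U O a r C := ⟨_, rfl⟩
  obtain ⟨FO, hFO⟩ : ∃ FO, FO = ∑ C ∈ St, wO U a r C := ⟨_, rfl⟩
  obtain ⟨x, hx⟩ : ∃ x, x = r + 1 / r := ⟨_, rfl⟩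
  obtain ⟨m, hm⟩ : ∃ m, m = k + O.card := ⟨_, rfl⟩
  have hY0 : 0 < Y := by linarith
  have hx1 : 1 ≤ x := by
    have e0 : r + 1 / r = (1 + r ^ 2) / r := by field_simp; ring
    rw [hx, e0, le_div_iff₀ hr]
    nlinarith [sq_nonneg (r - 1)]
  have hx0 : 0 < x := by linarith
  have hlow := h.low hr hY M
  have hhigh := h.high hr (M := M) (m := m) (by omega)
  have htop := h.top hr hg
  rw [← hx] at hlow htop
  rw [← hFO] at hhigh htop
  rw [← hF, ← hFO, ← hx] at dom
  rw [← hF, ← hx, ← hm]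
  obtain ⟨lo, hlo⟩ : ∃ lo, lo = ∑ C ∈ St.filter (fun C => C.card < M), wO U a r C := ⟨_, rfl⟩
  obtain ⟨hi, hhi⟩ : ∃ hi, hi = ∑ C ∈ St.filter (fun C => M ≤ C.card ∧ (a C).card ≤ m), wO U a r C := ⟨_, rfl⟩
  rw [← hlo] at hlow
  rw [← hhi] at hhigh
  -- the low part
  have h1 : lo ≤ Y ^ M * (1 + 1 / Y) ^ U.card / x ^ (g - M) * FO := by
    have h2 : x ^ g = x ^ M * x ^ (g - M) := by
      rw [← pow_add]
      congr 1
      omega
    have h3 : r ^ U.card * x ^ M ≤ FO / x ^ (g - M) := by
      rw [le_div_iff₀ (by positivity)]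
      calc r ^ U.card * x ^ M * x ^ (g - M) = r ^ U.card * x ^ g := by rw [h2]; ring
        _ ≤ FO := htop
    calc lo ≤ (Y * x) ^ M * (r ^ U.card * (1 + 1 / Y) ^ U.card) := hlow
      _ = Y ^ M * (1 + 1 / Y) ^ U.card * (r ^ U.card * x ^ M) := by rw [mul_pow]; ring
      _ ≤ Y ^ M * (1 + 1 / Y) ^ U.card * (FO / x ^ (g - M)) := mul_le_mul_of_nonneg_left h3 (by positivity)
      _ = _ := by ring
  -- the high part
  have h4 : hi ≤ 1 / (1 + r ^ 2) ^ (M - 2 * m) * FO := by
    rw [div_mul_eq_mul_div, one_mul, le_div_iff₀ (by positivity), mul_comm]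
    exact hhigh
  -- the tail of `O`
  have h5 : r ^ O.card * ∑ C ∈ (stD St O a).filter (fun C => (a C \ O).card ≤ k), wD U O a r C ≤ lo + hi := by
    rw [mul_sum]
    have h6 : ∀ C ∈ (stD St O a).filter (fun C => (a C \ O).card ≤ k), r ^ O.card * wD U O a r C ≤ wO U a r C :=
      fun C hC => h.wD_le hr (mem_filter.1 hC).1
    refine (sum_le_sum h6).trans ?_
    have h7 : (stD St O a).filter (fun C => (a C \ O).card ≤ k) ⊆
        St.filter (fun C => C.card < M) ∪ St.filter (fun C => M ≤ C.card ∧ (a C).card ≤ m) := by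
      intro C hC
      obtain ⟨hC1, hC2⟩ := mem_filter.1 hC
      have hC3 := (mem_filter.1 hC1).1
      rw [mem_union, mem_filter, mem_filter]
      rcases lt_or_ge C.card M with h8 | h8
      · exact Or.inl ⟨hC3, h8⟩
      · refine Or.inr ⟨hC3, h8, ?_⟩
        have h9 : (a C).card ≤ (a C \ O).card + O.card := by
          have h10 := card_inter_add_card_sdiff (a C) O
          have h11 : (a C ∩ O).card ≤ O.card := card_le_card inter_subset_right
          omega
        omega
    refine (sum_le_sum_of_subset_of_nonneg h7 fun C _ _ => wO_nonneg hr.le C).trans ?_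
    rw [sum_union]
    · rw [hlo, hhi]
    · rw [disjoint_left]
      intro C hC1 hC2
      have := (mem_filter.1 hC1).2
      have := (mem_filter.1 hC2).2.1
      omega
  obtain ⟨A, hA⟩ : ∃ A, A = Y ^ M * (1 + 1 / Y) ^ U.card / x ^ (g - M) + 1 / (1 + r ^ 2) ^ (M - 2 * m) := ⟨_, rfl⟩
  have hA0 : 0 ≤ A := by rw [hA]; positivity
  rw [← hA]
  have h12 : r ^ O.card * ∑ C ∈ (stD St O a).filter (fun C => (a C \ O).card ≤ k), wD U O a r C ≤ A * (x ^ O.card * F) := by
    refine h5.trans (le_trans ?_ (mul_le_mul_of_nonneg_left dom hA0))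
    rw [hA, add_mul]
    exact add_le_add h1 h4
  have h13 : x ^ O.card = r ^ O.card * (1 + 1 / r ^ 2) ^ O.card := by
    rw [← mul_pow, hx]
    congr 1
    field_simp
  have h14 : 0 < r ^ O.card := by positivity
  refine le_of_mul_le_mul_left ?_ h14
  calc r ^ O.card * ∑ C ∈ (stD St O a).filter (fun C => (a C \ O).card ≤ k), wD U O a r C ≤ A * (x ^ O.card * F) := h12
    _ = r ^ O.card * ((1 + 1 / r ^ 2) ^ O.card * A * F) := by rw [h13]; ring

end Pool.Agent.Helper3.C5
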