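import Pool.Agent.Helper3.C5.Num
import Pool.Agent.Helper74.EV5.Half
import Pool.Agent.Helper85.E5.Core5

/-!
# MP_ea8a26, project [C]: almost all letters doubled, from the state model
-/

set_option autoImplicit false

namespace Pool.Agent.Helper3.C5

open Polynomial Finset

variable {α : Type} [DecidableEq α] {U O : Finset α} {St : Finset (Finset α)} {a : Finset α → Finset α}

theorem coeff_mono_nonneg (u j k : ℕ) : 0 ≤ ((X : ℤ[X]) ^ u * (1 + X ^ 2) ^ j).coeff k := by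
  have h1 : ((X : ℤ[X]) ^ u * (1 + X ^ 2) ^ j) = ((X : ℕ[X]) ^ u * (1 + X ^ 2) ^ j).map (Nat.castRingHom ℤ) := by
    simp
  rw [h1, coeff_map]
  simp

theorem coeff_mono_top (u j : ℕ) : ((X : ℤ[X]) ^ u * (1 + X ^ 2) ^ j).coeff (u + 2 * j) = 1 := by
  have h1 : ((1 : ℤ[X]) + X ^ 2).Monic := by
    rw [add_comm]
    exact monic_X_pow_add (by simp)
  have h2 : ((1 : ℤ[X]) + X ^ 2).natDegree = 2 := by
    rw [add_comm]
    have := natDegree_X_pow_add_C (n := 2) (r := (1 : ℤ))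
    simpa using this
  have h3 : ((X : ℤ[X]) ^ u * (1 + X ^ 2) ^ j).Monic := (monic_X_pow u).mul (h1.pow j)
  have h4 : ((X : ℤ[X]) ^ u * (1 + X ^ 2) ^ j).natDegree = u + 2 * j := by
    rw [(monic_X_pow u).natDegree_mul (h1.pow j), natDegree_X_pow, h1.natDegree_pow, h2]
    ring
  rw [← h4]
  exact h3.coeff_natDegree

/-- the number of doubled letters is at most the degree -/
theorem Model.double_le (h : Model U O St a) {p : ℤ[X]} (hp : p = ∑ C ∈ stD St O a, wD U O a (X : ℤ[X]) C)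
    (hg : ∃ C ∈ St, a C = C) : (U \ O).card ≤ p.natDegree := by
  obtain ⟨C, hC, haC⟩ := hg
  have hCD : C ∈ stD St O a := by
    unfold stD
    rw [mem_filter, haC]
    exact ⟨hC, inter_subset_left⟩
  have hCU := h.sub C hC
  obtain ⟨u, hu⟩ : ∃ u, u = (C ∩ O).card + ((U \ O) \ C).card := ⟨_, rfl⟩
  obtain ⟨j, hj⟩ : ∃ j, j = (a C \ O).card := ⟨_, rfl⟩
  have h1 : 1 ≤ p.coeff (u + 2 * j) := by
    rw [hp, finsetSum_coeff]
    have h2 : (wD U O a (X : ℤ[X]) C).coeff (u + 2 * j) = 1 := by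
      unfold wD
      rw [← hu, ← hj]
      exact coeff_mono_top u j
    rw [← h2]
    exact single_le_sum (f := fun C => (wD U O a (X : ℤ[X]) C).coeff (u + 2 * j)) (fun C _ => coeff_mono_nonneg _ _ _) hCD
  have h3 : u + 2 * j ≤ p.natDegree := by
    apply le_natDegree_of_ne_zero
    omega
  have h4 : (U \ O).card = ((U \ O) \ C).card + ((U \ O) ∩ C).card := (card_sdiff_add_card_inter _ _).symm
  have h5 : (U \ O) ∩ C ⊆ a C \ O := by
    rw [haC]
    intro x hx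
    simp only [mem_inter, mem_sdiff] at hx ⊢
    exact ⟨hx.2, hx.1.2⟩
  have h6 := card_le_card h5
  omega

/-- **Log-concavity when almost all letters are doubled.** -/
theorem case2 {N K : ℝ} (hN : 8 ≤ N) (hK : 1 ≤ K) : ∃ δ : ℝ, 0 < δ ∧ δ ≤ 1 ∧ ∃ L₀ : ℕ, ∀ p : ℤ[X], (∀ k, 0 ≤ p.coeff k) →
    (∀ j k, p.coeff j ≠ 0 → p.coeff k ≠ 0 → j % 2 = k % 2) → p ≠ 0 → L₀ ≤ p.natDegree →
    (∀ z : ℂ, aeval z p = 0 → (z.re = 0 ∧ |z.im| ≤ 2) ∨ (8 ≤ N * |z.im| ∧ 4 * |z.re| ≤ N * |z.im| ∧ ‖z‖ ≤ N / 2)) →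
    ∀ (α : Type) (_ : DecidableEq α) (U O : Finset α) (St : Finset (Finset α)) (a : Finset α → Finset α), Model U O St a →
    p = ∑ C ∈ stD St O a, wD U O a (X : ℤ[X]) C →
    (∀ r : ℝ, 0 < r → ∑ C ∈ St, wO U a r C ≤ (r + 1 / r) ^ O.card * ∑ C ∈ stD St O a, wD U O a r C) →
    (∃ C ∈ St, a C = C ∧ (p.natDegree : ℝ) ≤ 2 * K * C.card) → (O.card : ℝ) ≤ δ * p.natDegree →
    ∀ k : ℕ, p.coeff k * p.coeff (k + 4) ≤ p.coeff (k + 2) ^ 2 := by
  have hμ0 := mu_pos hK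
  have hμ1 : mu K / 8 ≤ 1 := by
    have h1 := mu_le hK
    have h2 : 1 / (4 * K) ≤ 1 := by
      rw [div_le_one (by positivity)]
      linarith
    linarith
  obtain ⟨r₁, hr0, hr1, hfin⟩ := Pool.Agent.Helper74.EV5.fin_mix_of (fun b c T κ h => Pool.Agent.Helper85.E5.core5 b c T κ h) hN
    (η := mu K / 8) (by positivity) hμ1
  obtain ⟨δ, γ, hδ0, hδ1, hγ, L₁, htail⟩ := tail_num hK hr0
  obtain ⟨L₂, hL₂⟩ := hfin γ hγ
  refine ⟨δ, hδ0, hδ1, max L₁ L₂, ?_⟩
  intro p nn hpar h0 hL zf α _ U O St a hM hB hdom hg hO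
  obtain ⟨C₀, hC₀, haC₀, hg₀⟩ := hg
  have hU : (U.card : ℝ) ≤ 2 * p.natDegree := by
    have h1 := hM.double_le hB ⟨C₀, hC₀, haC₀⟩
    have h2 : (U \ O).card + O.card = U.card := card_sdiff_add_card_eq_card hM.hO
    have h3 : (U.card : ℝ) = (U \ O).card + O.card := by exact_mod_cast h2.symm
    have h4 : ((U \ O).card : ℝ) ≤ p.natDegree := by exact_mod_cast h1
    have h5 : δ * (p.natDegree : ℝ) ≤ 1 * p.natDegree := mul_le_mul_of_nonneg_right hδ1 (Nat.cast_nonneg _)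
    linarith
  obtain ⟨t1, t2, t3⟩ := htail p.natDegree ((le_max_left _ _).trans hL) U.card O.card C₀.card hU hg₀ hO
  refine hL₂ p.natDegree ((le_max_right _ _).trans hL) p nn hpar h0 le_rfl zf (Finset α) (stD St O a)
    (fun C => (C ∩ O).card + ((U \ O) \ C).card) (fun C => (a C \ O).card) ?_ ?_
  · intro z
    conv_lhs => rw [hB]
    rw [map_sum]
    refine sum_congr rfl fun C _ => ?_
    unfold wD
    simp
  · intro t ht ht1
    have ht0 : 0 < t := lt_of_lt_of_le hr0 ht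
    have hs0 : 0 < √t := Real.sqrt_pos.2 ht0
    have hs2 : √t ^ 2 = t := Real.sq_sqrt ht0.le
    have hx : 2 ≤ √t + 1 / √t := by
      have e0 : √t + 1 / √t = (1 + √t ^ 2) / √t := by field_simp; ring
      rw [e0, le_div_iff₀ hs0]
      nlinarith [sq_nonneg (√t - 1)]
    have h1 := hM.tail hs0 (g := C₀.card) ⟨C₀, hC₀, haC₀, le_rfl⟩ (hdom _ hs0) (Y := 64 * K) (by linarith) t1 t2
    have h2 := t3 t ht ht1 _ hx
    have h3 : (aeval √t p : ℝ) = ∑ C ∈ stD St O a, wD U O a (√t) C := by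
      conv_lhs => rw [hB]
      rw [map_sum]
      refine sum_congr rfl fun C _ => ?_
      unfold wD
      simp
    have h4 : 0 ≤ ∑ C ∈ stD St O a, wD U O a (√t) C := sum_nonneg fun C _ => wD_nonneg hs0.le C
    rw [h3]
    have h5 : ∑ C ∈ (stD St O a) with (((a C \ O).card : ℕ) : ℝ) ≤ mu K / 8 * p.natDegree, √t ^ ((C ∩ O).card + ((U \ O) \ C).card) * (1 + t) ^ (a C \ O).card =
        ∑ C ∈ (stD St O a).filter (fun C => (a C \ O).card ≤ ⌊mu K / 8 * (p.natDegree : ℝ)⌋₊), wD U O a (√t) C := by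
      have e1 : (stD St O a).filter (fun C => (((a C \ O).card : ℕ) : ℝ) ≤ mu K / 8 * p.natDegree) =
          (stD St O a).filter (fun C => (a C \ O).card ≤ ⌊mu K / 8 * (p.natDegree : ℝ)⌋₊) := by
        refine filter_congr fun C _ => ?_
        exact (Nat.le_floor_iff (by positivity)).symm
      rw [e1]
      refine sum_congr rfl fun C _ => ?_
      unfold wD
      rw [hs2]
    rw [h5]
    refine h1.trans (mul_le_mul_of_nonneg_right ?_ h4)
    rw [hs2]
    exact h2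

end Pool.Agent.Helper3.C5
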