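import Pool.Agent.Helper3.C5.Case2
import Pool.Agent.Helper2.C5.ModelB
import Pool.Agent.Helper85.E5.Main

/-!
# MP_ea8a26, project [C]: plane diagrams whose Seifert circles have few twist regions, few single crossings and large genus
-/

set_option autoImplicit false

namespace Pool.Agent.Helper3.C5

open Polynomial Pool.Agent.Helper85.Exp Pool.Agent.Helper60.EV2 Pool.Agent.Helper57.EV Pool.Agent.Helper57.EV2 Pool.Agent.Helper43.Pln
  Pool.Agent.Helper57.EV4 Pool.Agent.Helper2.V8B Pool.Agent.Helper85.EV4 Pool.Agent.Helper57.C5 Pool.Agent.Helper2.C5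

/-- **Theorem [C].** For all `N` and `K` there is `m₀` such that the Conway polynomial `∇` of the positive diagram of a plane shape is log-concave when
every Seifert circle, with `l` and `r` twist regions on its two sides, has `l r ≤ N`, when the degree of `∇` is at most `K` times the larger one of the
number of inner crossings and of the difference of the degree and the order of `∇`, when the smaller one of the degree and of the number of twist
regions with exactly one crossing is at most `K` times the number of inner crossings, and when the degree is at least `m₀`. -/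
theorem main_C (N K : ℕ) : ∃ m₀ : ℕ, ∀ (P : Type) [Fintype P] (G : Sh P), Plane G →
    (∀ e : P, side G (Bigon G) true e * side G (Bigon G) false e ≤ N) → ∀ nab : Dg G → ℤ[X], Cs nab →
    (nab (allPos G)).natDegree ≤ K * max ((nab (allPos G)).natDegree - (nab (allPos G)).natTrailingDegree) (inner G) →
    min (singles G) (nab (allPos G)).natDegree ≤ K * inner G → m₀ ≤ (nab (allPos G)).natDegree → LogConcave G nab := by
  classical
  have hN8 : (8 : ℝ) ≤ 96 * ((N : ℝ) + 2) ^ 2 := by nlinarith [(Nat.cast_nonneg N : (0 : ℝ) ≤ N)]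
  obtain ⟨K₁, hK₁⟩ : ∃ K₁ : ℝ, K₁ = K + 1 := ⟨_, rfl⟩
  have hK0 : (0 : ℝ) ≤ K := Nat.cast_nonneg K
  obtain ⟨δ, hδ0, hδ1, L₂, hcase⟩ := case2 (K := K₁) hN8 (by rw [hK₁]; linarith)
  obtain ⟨k₂, hk₂⟩ := exists_nat_ge ((K + 1) / δ)
  obtain ⟨Kc, hKc⟩ : ∃ Kc : ℕ, Kc = K + k₂ := ⟨_, rfl⟩
  obtain ⟨mA, hmA⟩ := Pool.Agent.Helper85.E5.main_deg N Kc
  refine ⟨Kc * mA + L₂ + 2, fun P _ G hG hN nab hn hdeg hsing hm => ?_⟩
  have hne := nonempty_of hG
  obtain ⟨b⟩ := id hne
  obtain ⟨d, hd⟩ : ∃ d, d = (nab (allPos G)).natDegree := ⟨_, rfl⟩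
  obtain ⟨e, he⟩ : ∃ e, e = (nab (allPos G)).natTrailingDegree := ⟨_, rfl⟩
  rw [← hd] at hsing hm
  rw [← hd, ← he] at hdeg
  by_cases hA : d ≤ Kc * inner G
  · -- many inner crossings
    refine hmA P G hG hN ?_ nab hn (hd ▸ hA)
    by_contra h
    push Not at h
    have := Nat.mul_le_mul_left Kc h.le
    omega
  · -- few inner crossings
    push Not at hA
    have hKi : K * inner G ≤ Kc * inner G := Nat.mul_le_mul_right _ (by omega)
    have h1 : d ≤ K * (d - e) := by
      rcases le_total (d - e) (inner G) with h | h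
      · rw [max_eq_right h] at hdeg
        omega
      · rwa [max_eq_left h] at hdeg
    have h2 : singles G ≤ K * inner G := by
      rcases le_total (singles G) d with h | h
      · rwa [min_eq_left h] at hsing
      · rw [min_eq_right h] at hsing
        omega
    obtain ⟨nn, hdegP, hpar⟩ := Pool.Agent.Helper60.PD.nab_nn hG.cross hn
    have hcard := card_eq hG.cross
    have hdegP' : 2 * d ≤ Nat.card P := by rw [hd]; exact hdegP
    obtain ⟨J, hJ, hJ2, hJ3⟩ := pairs hG.cross hG.conn (by omega)
    have h0 : nab (allPos G) ≠ 0 := by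
      intro h
      rw [h, natDegree_zero] at hd
      omega
    obtain ⟨C, hC, haC, hCd⟩ := exists_top hn hG.cross b hJ h0
    refine fun k => lc_int (fun i => ?_) _ k
    refine hcase (nab (allPos G)) nn hpar h0 (by rw [← hd]; omega) (fun z hz => zfree_rows hG nab hn hN hz) P _ (UU G J) (Out G J) (stt (D1 G J) b)
      (av (D1 G J) b) (model hG hn b hJ) (state_X hn hG.cross hJ b) (fun r hr => dom hG.cross hn b hJ hr) ⟨C, hC, haC, ?_⟩ ?_ i
    · rw [← hd, ← he] at hCd
      rw [← hd]
      have h3 : d - e ≤ 2 * C.card := by omega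
      have h4 : d ≤ K * (2 * C.card) := h1.trans (Nat.mul_le_mul_left K h3)
      have h5 : (d : ℝ) ≤ K * (2 * C.card) := by exact_mod_cast h4
      have h6 : (0 : ℝ) ≤ C.card := Nat.cast_nonneg _
      rw [hK₁]
      nlinarith
    · rw [← hd]
      have h3 : ((Out G J).card : ℝ) ≤ (K + 1) * inner G := by
        have h4 : (Out G J).card ≤ (K + 1) * inner G := by
          calc (Out G J).card ≤ singles G + inner G := hJ3
            _ ≤ K * inner G + inner G := Nat.add_le_add_right h2 _
            _ = (K + 1) * inner G := by ring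
        exact_mod_cast h4
      have h5 : (Kc : ℝ) * inner G ≤ d := by exact_mod_cast hA.le
      have h6 : ((K : ℝ) + 1) / δ ≤ Kc := by
        rw [hKc]
        push_cast
        linarith
      have h7 : (0 : ℝ) ≤ inner G := Nat.cast_nonneg _
      rw [div_le_iff₀ hδ0] at h6
      calc ((Out G J).card : ℝ) ≤ (K + 1) * inner G := h3
        _ ≤ Kc * δ * inner G := mul_le_mul_of_nonneg_right h6 h7
        _ = δ * (Kc * inner G) := by ring
        _ ≤ δ * d := mul_le_mul_of_nonneg_left h5 hδ0.le

end Pool.Agent.Helper3.C5
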