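import Pool.Agent.Helper3.C5.Tail

/-!
# MP_ea8a26, project [C]: the numbers in the tail estimate
-/

set_option autoImplicit false

namespace Pool.Agent.Helper3.C5

/-- share of the letters -/
noncomputable def mu (K : ℝ) : ℝ := 1 / (4096 * K ^ 2)

theorem mu_pos {K : ℝ} (hK : 1 ≤ K) : 0 < mu K := by
  unfold mu
  positivity

theorem mu_le {K : ℝ} (hK : 1 ≤ K) : mu K ≤ 1 / (4 * K) := by
  unfold mu
  rw [div_le_div_iff₀ (by positivity) (by positivity)]
  nlinarith

/-- the low part -/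
theorem low_num {K : ℝ} (hK : 1 ≤ K) {L n g M : ℕ} (hn : (n : ℝ) ≤ 2 * L) (hg : (L : ℝ) ≤ 2 * K * g) (hM : (M : ℝ) ≤ mu K * L) {x : ℝ}
    (hx : 2 ≤ x) (hMg : M ≤ g) :
    (64 * K) ^ M * (1 + 1 / (64 * K)) ^ n / x ^ (g - M) ≤ Real.exp (-(L / (4 * K))) := by
  have hK0 : 0 < K := by linarith
  have hL0 : (0 : ℝ) ≤ L := Nat.cast_nonneg L
  have h1 : (64 * K) ^ M ≤ Real.exp (L / (64 * K)) := by
    have a1 : 64 * K ≤ Real.exp (64 * K) := by
      have := Real.add_one_le_exp (64 * K)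
      linarith
    calc (64 * K) ^ M ≤ Real.exp (64 * K) ^ M := pow_le_pow_left₀ (by positivity) a1 M
      _ = Real.exp (M * (64 * K)) := by rw [← Real.exp_nat_mul]
      _ ≤ _ := by
        apply Real.exp_le_exp.2
        calc (M : ℝ) * (64 * K) ≤ mu K * L * (64 * K) := mul_le_mul_of_nonneg_right hM (by positivity)
          _ = L / (64 * K) := by
            unfold mu
            field_simp
            ring
  have h2 : (1 + 1 / (64 * K)) ^ n ≤ Real.exp (L / (32 * K)) := by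
    have a1 : 1 + 1 / (64 * K) ≤ Real.exp (1 / (64 * K)) := by
      have := Real.add_one_le_exp (1 / (64 * K))
      linarith
    calc (1 + 1 / (64 * K)) ^ n ≤ Real.exp (1 / (64 * K)) ^ n := pow_le_pow_left₀ (by positivity) a1 n
      _ = Real.exp (n * (1 / (64 * K))) := by rw [← Real.exp_nat_mul]
      _ ≤ _ := by
        apply Real.exp_le_exp.2
        calc (n : ℝ) * (1 / (64 * K)) ≤ 2 * L * (1 / (64 * K)) := mul_le_mul_of_nonneg_right hn (by positivity)
          _ = L / (32 * K) := by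
            field_simp
            ring
  have h3 : Real.exp ((g - M : ℕ) * (69 / 100)) ≤ x ^ (g - M) := by
    rw [Real.exp_nat_mul]
    refine pow_le_pow_left₀ (Real.exp_pos _).le (le_trans ?_ hx) _
    have := Real.log_two_gt_d9
    rw [← Real.le_log_iff_exp_le (by norm_num)]
    linarith
  have h4 : (L : ℝ) * (1 / (4 * K)) ≤ (g - M : ℕ) := by
    rw [Nat.cast_sub hMg]
    have b1 : (L : ℝ) / (2 * K) ≤ g := by
      rw [div_le_iff₀ (by positivity)]
      linarith
    have b2 : mu K * L ≤ 1 / (4 * K) * L := mul_le_mul_of_nonneg_right (mu_le hK) hL0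
    have b3 : (L : ℝ) / (2 * K) = 1 / (4 * K) * L + L * (1 / (4 * K)) := by
      field_simp
      ring
    linarith
  have h4' : (L : ℝ) * (1 / (2 * K)) - L * mu K ≤ (g - M : ℕ) := by
    rw [Nat.cast_sub hMg]
    have b1 : (L : ℝ) / (2 * K) ≤ g := by
      rw [div_le_iff₀ (by positivity)]
      linarith
    have b3 : (L : ℝ) / (2 * K) = L * (1 / (2 * K)) := by ring
    linarith
  have h5 : mu K ≤ 1 / (4096 * K) := by
    unfold mu
    rw [div_le_div_iff₀ (by positivity) (by positivity)]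
    nlinarith
  rw [div_le_iff₀ (by positivity)]
  calc (64 * K) ^ M * (1 + 1 / (64 * K)) ^ n ≤ Real.exp (L / (64 * K)) * Real.exp (L / (32 * K)) :=
        mul_le_mul h1 h2 (by positivity) (Real.exp_pos _).le
    _ ≤ Real.exp (-(L / (4 * K))) * Real.exp ((g - M : ℕ) * (69 / 100)) := by
        rw [← Real.exp_add, ← Real.exp_add]
        apply Real.exp_le_exp.2
        have c1 : (L : ℝ) * mu K ≤ L * (1 / (4096 * K)) := mul_le_mul_of_nonneg_left h5 hL0
        have c2 : (L : ℝ) * (1 / (2 * K)) - L * (1 / (4096 * K)) ≤ (g - M : ℕ) := by linarith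
        have c3 : (L : ℝ) / (64 * K) + L / (32 * K) + L / (4 * K) ≤ (L * (1 / (2 * K)) - L * (1 / (4096 * K))) * (69 / 100) := by
          obtain ⟨y, hy⟩ : ∃ y, y = (L : ℝ) / K := ⟨_, rfl⟩
          have hy0 : 0 ≤ y := by rw [hy]; positivity
          have d1 : (L : ℝ) / (64 * K) = y / 64 := by rw [hy]; field_simp
          have d2 : (L : ℝ) / (32 * K) = y / 32 := by rw [hy]; field_simp
          have d3 : (L : ℝ) / (4 * K) = y / 4 := by rw [hy]; field_simp
          have d4 : (L : ℝ) * (1 / (2 * K)) = y / 2 := by rw [hy]; field_simp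
          have d5 : (L : ℝ) * (1 / (4096 * K)) = y / 4096 := by rw [hy]; field_simp
          rw [d1, d2, d3, d4, d5]
          linarith
        nlinarith
    _ ≤ _ := mul_le_mul_of_nonneg_left h3 (Real.exp_pos _).le

/-- **The tail is exponentially small.** The constants: `mu K / 8` is the share of the allowed smoothed doubles, `δ` the admissible share of the odd letters. -/
theorem tail_num {K : ℝ} (hK : 1 ≤ K) {r₁ : ℝ} (hr : 0 < r₁) : ∃ δ γ : ℝ, 0 < δ ∧ δ ≤ 1 ∧ 0 < γ ∧ ∃ L₁ : ℕ, ∀ L : ℕ, L₁ ≤ L →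
    ∀ n o g : ℕ, (n : ℝ) ≤ 2 * L → (L : ℝ) ≤ 2 * K * g → (o : ℝ) ≤ δ * L →
    2 * (⌊mu K / 8 * L⌋₊ + o) ≤ ⌊mu K * L⌋₊ ∧ ⌊mu K * L⌋₊ ≤ g ∧
    ∀ t : ℝ, r₁ ≤ t → t ≤ r₁⁻¹ → ∀ x : ℝ, 2 ≤ x →
      (1 + 1 / t) ^ o * ((64 * K) ^ ⌊mu K * L⌋₊ * (1 + 1 / (64 * K)) ^ n / x ^ (g - ⌊mu K * L⌋₊) +
        1 / (1 + t) ^ (⌊mu K * L⌋₊ - 2 * (⌊mu K / 8 * L⌋₊ + o))) ≤ Real.exp (-(γ * L)) := by
  have hK0 : 0 < K := by linarith
  obtain ⟨μ, hμ⟩ : ∃ μ, μ = mu K := ⟨_, rfl⟩
  have hμ0 : 0 < μ := by rw [hμ]; exact mu_pos hK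
  have hμ1 : μ ≤ 1 / (4 * K) := by rw [hμ]; exact mu_le hK
  obtain ⟨s, hs⟩ : ∃ s, s = Real.log (1 + r₁) := ⟨_, rfl⟩
  have hs0 : 0 < s := by rw [hs]; exact Real.log_pos (by linarith)
  obtain ⟨q, hq⟩ : ∃ q, q = Real.log (1 + 1 / r₁) := ⟨_, rfl⟩
  have hq0 : 0 < q := by
    rw [hq]
    apply Real.log_pos
    have : 0 < 1 / r₁ := by positivity
    linarith
  obtain ⟨G, hG⟩ : ∃ G, G = min (1 / (8 * K)) (μ / 8 * s) := ⟨_, rfl⟩
  have hG0 : 0 < G := by rw [hG]; positivity
  have hGa : G ≤ 1 / (8 * K) := by rw [hG]; exact min_le_left _ _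
  have hGb : G ≤ μ / 8 * s := by rw [hG]; exact min_le_right _ _
  refine ⟨min (min (μ / 8) 1) (G / q), G / 2, by positivity, (min_le_left _ _).trans (min_le_right _ _), by positivity, ?_⟩
  obtain ⟨L₁, hL₁⟩ := exists_nat_ge (max (4 / μ) (2 / G))
  refine ⟨L₁, fun L hL n o g hn hg ho => ?_⟩
  rw [← hμ]
  have hL0 : (0 : ℝ) ≤ L := Nat.cast_nonneg L
  have hLL : max (4 / μ) (2 / G) ≤ L := hL₁.trans (by exact_mod_cast hL)
  have e1 : 4 ≤ μ * L := by
    have := (le_max_left _ _).trans hLL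
    rw [div_le_iff₀ hμ0] at this
    linarith
  have e2 : 2 ≤ G * L := by
    have := (le_max_right _ _).trans hLL
    rw [div_le_iff₀ hG0] at this
    linarith
  have ho1 : (o : ℝ) ≤ μ / 8 * L := ho.trans (mul_le_mul_of_nonneg_right ((min_le_left _ _).trans (min_le_left _ _)) hL0)
  have ho2 : (o : ℝ) * q ≤ G * L := by
    have h1 : (o : ℝ) ≤ G / q * L := ho.trans (mul_le_mul_of_nonneg_right (min_le_right _ _) hL0)
    calc (o : ℝ) * q ≤ G / q * L * q := mul_le_mul_of_nonneg_right h1 hq0.le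
      _ = G * L := by field_simp
  obtain ⟨M, hM⟩ : ∃ M, M = ⌊μ * (L : ℝ)⌋₊ := ⟨_, rfl⟩
  obtain ⟨k, hk⟩ : ∃ k, k = ⌊μ / 8 * (L : ℝ)⌋₊ := ⟨_, rfl⟩
  rw [← hM, ← hk]
  have hM1 : (M : ℝ) ≤ μ * L := by rw [hM]; exact Nat.floor_le (by positivity)
  have hM2 : μ * L < M + 1 := by rw [hM]; exact Nat.lt_floor_add_one _
  have hk1 : (k : ℝ) ≤ μ / 8 * L := by rw [hk]; exact Nat.floor_le (by positivity)
  have h1 : 2 * (k + o) ≤ M := by
    have : (2 * ((k : ℝ) + o)) ≤ M := by linarith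
    exact_mod_cast this
  have h2 : M ≤ g := by
    have b1 : (L : ℝ) / (2 * K) ≤ g := by
      rw [div_le_iff₀ (by positivity)]
      linarith
    have b2 : μ * L ≤ 1 / (4 * K) * L := mul_le_mul_of_nonneg_right hμ1 hL0
    have b3 : 1 / (4 * K) * (L : ℝ) ≤ L / (2 * K) := by
      rw [div_mul_eq_mul_div, one_mul, div_le_div_iff₀ (by positivity) (by positivity)]
      nlinarith
    have : (M : ℝ) ≤ g := by linarith
    exact_mod_cast this
  refine ⟨h1, h2, fun t ht ht1 x hx => ?_⟩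
  have ht0 : 0 < t := by linarith
  have h3 := low_num hK hn hg (hμ ▸ hM1) hx h2
  have h4 : 1 / (1 + t) ^ (M - 2 * (k + o)) ≤ Real.exp (-(μ / 4 * s * L)) := by
    have a1 : Real.exp (μ / 4 * L * s) ≤ (1 + t) ^ (M - 2 * (k + o)) := by
      have a2 : (1 + t) = Real.exp (Real.log (1 + t)) := (Real.exp_log (by linarith)).symm
      rw [a2, ← Real.exp_nat_mul]
      apply Real.exp_le_exp.2
      have a3 : s ≤ Real.log (1 + t) := by
        rw [hs]
        exact Real.log_le_log (by linarith) (by linarith)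
      have a4 : μ / 4 * L ≤ ((M - 2 * (k + o) : ℕ) : ℝ) := by
        rw [Nat.cast_sub h1]
        push_cast
        linarith
      exact mul_le_mul a4 a3 hs0.le (Nat.cast_nonneg _)
    rw [Real.exp_neg, one_div]
    apply inv_anti₀ (Real.exp_pos _)
    calc Real.exp (μ / 4 * s * L) = Real.exp (μ / 4 * L * s) := by congr 1; ring
      _ ≤ _ := a1
  have h5 : (1 + 1 / t) ^ o ≤ Real.exp (G * L) := by
    have a1 : (1 + 1 / t) ≤ Real.exp q := by
      rw [hq, Real.exp_log (by positivity)]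
      have : 1 / t ≤ 1 / r₁ := one_div_le_one_div_of_le hr ht
      linarith
    calc (1 + 1 / t) ^ o ≤ Real.exp q ^ o := pow_le_pow_left₀ (by positivity) a1 o
      _ = Real.exp (o * q) := by rw [← Real.exp_nat_mul]
      _ ≤ _ := Real.exp_le_exp.2 ho2
  have h6 : (64 * K) ^ M * (1 + 1 / (64 * K)) ^ n / x ^ (g - M) + 1 / (1 + t) ^ (M - 2 * (k + o)) ≤ 2 * Real.exp (-(2 * G * L)) := by
    have a1 : Real.exp (-(L / (4 * K))) ≤ Real.exp (-(2 * G * L)) := by
      apply Real.exp_le_exp.2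
      have a2 : 2 * G * L ≤ 2 * (1 / (8 * K)) * L := by
        apply mul_le_mul_of_nonneg_right _ hL0
        linarith
      have a3 : 2 * (1 / (8 * K)) * L = L / (4 * K) := by
        field_simp
        ring
      linarith
    have a4 : Real.exp (-(μ / 4 * s * L)) ≤ Real.exp (-(2 * G * L)) := by
      apply Real.exp_le_exp.2
      have a2 : 2 * G * L ≤ 2 * (μ / 8 * s) * L := by
        apply mul_le_mul_of_nonneg_right _ hL0
        linarith
      have a3 : 2 * (μ / 8 * s) * L = μ / 4 * s * L := by ring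
      linarith
    linarith
  calc (1 + 1 / t) ^ o * ((64 * K) ^ M * (1 + 1 / (64 * K)) ^ n / x ^ (g - M) + 1 / (1 + t) ^ (M - 2 * (k + o)))
      ≤ Real.exp (G * L) * (2 * Real.exp (-(2 * G * L))) := by
        refine mul_le_mul h5 h6 ?_ (Real.exp_pos _).le
        have : 0 < x := by linarith
        positivity
    _ = 2 * Real.exp (-(G * L)) := by
        rw [mul_left_comm, ← Real.exp_add]
        congr 2
        ring
    _ ≤ Real.exp (G / 2 * L) * Real.exp (-(G * L)) := by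
        apply mul_le_mul_of_nonneg_right _ (Real.exp_pos _).le
        have := Real.add_one_le_exp (G / 2 * L)
        linarith
    _ = Real.exp (-(G / 2 * L)) := by
        rw [← Real.exp_add]
        congr 1
        ring

end Pool.Agent.Helper3.C5
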